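import Mathlib

set_option autoImplicit false

namespace Pool.Agent.Results.MP_80cb54_al.AllValues

open Filter Topology

/-- Automorphisms of the `d`-regular rooted tree: vertices are words over `Fin d`, the root is the
empty word, the children of `w` are the words `a :: w`. -/
def Aut (d : ℕ) : Subgroup (Equiv.Perm (List (Fin d))) where
  carrier := {g | ∀ v w, (∃ a, g v = a :: g w) ↔ ∃ a, v = a :: w}
  one_mem' := fun _ _ => Iff.rfl
  mul_mem' := fun {_ h} hg hh v w => (hg (h v) (h w)).trans (hh v w)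
  inv_mem' := fun {g} hg v w => by simpa using (hg (g⁻¹ v) (g⁻¹ w)).symm

/-- the level `L_n` -/
abbrev Lv (d n : ℕ) := {w : List (Fin d) // w.length = n}

theorem len {d : ℕ} (g : Aut d) (w : List (Fin d)) : (g.1 w).length = w.length := by
  induction w with
  | nil =>
    cases h : g.1 [] with
    | nil => rfl
    | cons a u =>
      obtain ⟨b, hb⟩ := (g.2 [] (g.1⁻¹ u)).1 ⟨a, by simpa using h⟩
      cases hb
  | cons a u ih =>
    obtain ⟨b, hb⟩ := (g.2 (a :: u) u).2 ⟨a, rfl⟩
    rw [hb, List.length_cons, ih, List.length_cons]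

/-- restriction `Aut(T) → Sym(L_n)` -/
def res (d n : ℕ) : Aut d →* Equiv.Perm (Lv d n) where
  toFun g := g.1.subtypePerm fun w => by rw [len]
  map_one' := rfl
  map_mul' _ _ := rfl

/-- proportion of elements of `G_n` fixing a vertex of `L_n` -/
noncomputable def prop {d : ℕ} (G : Subgroup (Aut d)) (n : ℕ) : ℝ :=
  (Nat.card {g : G.map (res d n) // ∃ v, g.1 v = v} : ℝ) / Nat.card (G.map (res d n))

/-- level-transitivity -/
def LevelTransitive {d : ℕ} (G : Subgroup (Aut d)) : Prop :=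
  ∀ (n : ℕ) (v w : Lv d n), ∃ g ∈ G, res d n g v = w

instance (d n : ℕ) : Finite (Lv d n) := (List.finite_length_eq _ n).to_subtype

theorem ratio0 {X Y : Type} [Group X] [Group Y] [Finite X] (π : X →* Y)
    (h : Function.Surjective π) (P : Y → Prop) :
    Nat.card {x // P (π x)} = Nat.card {y // P y} * Nat.card π.ker := by
  rw [← Nat.card_prod]
  refine Nat.card_congr (Equiv.trans ?_ ((Equiv.sigmaCongrRight fun y : {y // P y} =>
    π.fiberEquivKerOfSurjective h y.1).trans (Equiv.sigmaEquivProd _ _)))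
  exact
    { toFun := fun x => ⟨⟨π x.1, x.2⟩, x.1, rfl⟩
      invFun := fun y => ⟨y.2.1, by rw [y.2.2]; exact y.1.2⟩
      left_inv := fun _ => rfl
      right_inv := by
        rintro ⟨⟨y, hy⟩, x, hx⟩
        have : π x = y := hx
        subst this
        rfl }

theorem ratio {A Q Γ : Type} [Group A] [Group Q] [Group Γ] [Finite Q] (σ : A →* Q) (ρ : A →* Γ)
    (h : σ.ker ≤ ρ.ker) (P : Γ → Prop) (R : Subgroup Γ) (hR : R = ρ.range) (R' : Subgroup Q)
    (hR' : R' = σ.range) :
    (Nat.card {γ : R // P γ} : ℝ) / Nat.card R =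
      Nat.card {q : R' // ∃ a, σ a = q ∧ P (ρ a)} / Nat.card R' := by
  subst hR hR'
  let π : σ.range →* ρ.range := σ.rangeRestrict.liftOfSurjective σ.rangeRestrict_surjective
    ⟨ρ.rangeRestrict, by simpa using h⟩
  have hπ : ∀ a, π (σ.rangeRestrict a) = ρ.rangeRestrict a := fun a =>
    MonoidHom.liftOfRightInverse_comp_apply _ _ _ _ a
  have sur : Function.Surjective π := fun y => by
    obtain ⟨a, rfl⟩ := ρ.rangeRestrict_surjective y
    exact ⟨_, hπ a⟩
  have a1 := ratio0 π sur fun γ => P γ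
  have a2 := ratio0 π sur fun _ => True
  simp only [Nat.card_subtype_true] at a2
  have a3 : Nat.card {q : σ.range // ∃ a, σ a = q ∧ P (ρ a)} = Nat.card {x // P (π x)} := by
    refine Nat.card_congr (Equiv.subtypeEquivRight fun q => ⟨?_, fun hq => ?_⟩)
    · rintro ⟨a, h1, h2⟩
      rwa [show q = σ.rangeRestrict a from Subtype.ext h1.symm, hπ]
    · obtain ⟨a, rfl⟩ := σ.rangeRestrict_surjective q
      exact ⟨a, rfl, by rwa [hπ] at hq⟩
  have : (Nat.card π.ker : ℝ) ≠ 0 := by exact_mod_cast Nat.card_pos.ne'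
  rw [a3, a1, a2]
  push_cast
  rw [mul_div_mul_right _ _ this]

variable {d : ℕ}

theorem par (g : Aut d) (a : Fin d) (u : List (Fin d)) (h : g.1 (a :: u) = a :: u) : g.1 u = u := by
  obtain ⟨b, hb⟩ := (g.2 (a :: u) u).2 ⟨a, rfl⟩
  rw [h] at hb
  exact (List.cons.inj hb).2.symm

theorem anti (hd : 0 < d) (G : Subgroup (Aut d)) : Antitone (prop G) := by
  refine antitone_nat_of_succ_le fun n => ?_
  have := ratio ((res d (n + 1)).comp G.subtype) ((res d n).comp G.subtype) (fun g hg => by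
      rw [MonoidHom.mem_ker] at hg ⊢
      ext v : 1
      have := congrArg Subtype.val (DFunLike.congr_fun hg ⟨⟨0, hd⟩ :: v.1, by simp [v.2]⟩)
      exact Subtype.ext (par _ _ _ this))
    (fun g => ∃ v, g v = v) (G.map (res d n)) (by simp [MonoidHom.range_comp])
    (G.map (res d (n + 1))) (by simp [MonoidHom.range_comp])
  unfold prop
  rw [this]
  refine div_le_div_of_nonneg_right ?_ (by positivity)
  refine Nat.cast_le.2 (Nat.card_le_card_of_injective (Subtype.map id ?_)
    (Subtype.map_injective _ Function.injective_id))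
  rintro ⟨_, g, hg, rfl⟩ ⟨⟨v, hv⟩, h⟩
  cases v with
  | nil => cases hv
  | cons a u =>
    exact ⟨⟨g, hg⟩, rfl, ⟨u, by simpa using hv⟩,
      Subtype.ext (par _ _ _ (congrArg Subtype.val h))⟩

theorem jordan {X : Type} [Finite X] (H : Subgroup (Equiv.Perm X)) (h : ∀ v w, ∃ g ∈ H, g v = w)
    (h2 : 2 ≤ Nat.card X) : ∃ g : H, ∀ v, g.1 v ≠ v := by
  classical
  by_contra! hc
  have := Fintype.ofFinite X
  have : Nonempty X := (Nat.card_pos_iff.1 (by omega)).1
  have : MulAction.IsPretransitive H X := ⟨fun v w => by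
    obtain ⟨g, hg, e⟩ := h v w
    exact ⟨⟨g, hg⟩, e⟩⟩
  have b := MulAction.sum_card_fixedBy_eq_card_orbits_mul_card_group H X
  have u : Fintype.card (Quotient (MulAction.orbitRel H X)) ≤ 1 :=
    Fintype.card_le_one_iff_subsingleton.2
      ((MulAction.pretransitive_iff_subsingleton_quotient H X).1 inferInstance)
  have l : ∑ _g : H, 1 < ∑ g : H, Fintype.card (MulAction.fixedBy X g) := by
    refine Finset.sum_lt_sum (fun g _ => ?_) ⟨1, Finset.mem_univ _, ?_⟩
    · obtain ⟨v, hv⟩ := hc g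
      exact Fintype.card_pos_iff.2 ⟨⟨v, hv⟩⟩
    · rw [Nat.card_eq_fintype_card] at h2
      simpa using (by omega : 1 < Fintype.card X)
  rw [b] at l
  simp only [Finset.sum_const, Finset.card_univ, smul_eq_mul, mul_one] at l
  nlinarith

theorem lt_bound (hd : 2 ≤ d) (G : Subgroup (Aut d)) (h : LevelTransitive G) :
    prop G 1 ≤ 1 - 1 / d.factorial := by
  classical
  have c : Nat.card (Lv d 1) = d := by
    have := Fintype.ofFinite (Lv d 1)
    rw [show Lv d 1 = List.Vector (Fin d) 1 from rfl, Nat.card_eq_fintype_card, card_vector]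
    simp
  obtain ⟨g, hg⟩ := jordan (G.map (res d 1)) (fun v w => by
    obtain ⟨g, hg, e⟩ := h 1 v w
    exact ⟨_, ⟨g, hg, rfl⟩, e⟩) (by omega)
  have c1 : Nat.card (G.map (res d 1)) ≤ d.factorial := by
    have := Subgroup.card_le_card_group (G.map (res d 1))
    rwa [Nat.card_perm, c] at this
  have c2 : Nat.card {g : G.map (res d 1) // ∃ v, g.1 v = v} < Nat.card (G.map (res d 1)) :=
    Finite.card_subtype_lt (x := g) (by simpa using hg)
  have c3 : 0 < Nat.card (G.map (res d 1)) := Nat.card_pos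
  unfold prop
  generalize Nat.card (G.map (res d 1)) = m at *
  generalize Nat.card {g : G.map (res d 1) // ∃ v, g.1 v = v} = k at *
  have c4 : (k : ℝ) + 1 ≤ m := by exact_mod_cast c2
  have c5 : (0 : ℝ) < m := by exact_mod_cast c3
  have c6 : (1 : ℝ) / d.factorial ≤ 1 / m := one_div_le_one_div_of_le c5 (by exact_mod_cast c1)
  have : (k : ℝ) / m + 1 / m ≤ 1 := by rw [← add_div, div_le_one c5]; exact c4
  linarith

/-- parameters `(c, x)` read from a big-endian number with `k` digits -/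
def cx (d : ℕ) : ℕ → ℕ → ℕ × ℕ
  | 0, _ => (0, 0)
  | 1, t => (t, 0)
  | k + 2, t => ((cx d (k + 1) (t / d)).1, (cx d (k + 1) (t / d)).2 + t % d * d ^ k)

theorem cx_sur (k c x : ℕ) (hc : c < d) (hx : x < d ^ k) :
    ∃ t < d ^ (k + 1), cx d (k + 1) t = (c, x) := by
  induction k generalizing x with
  | zero => exact ⟨c, by simpa, by simp at hx; simp [cx, hx]⟩
  | succ k ih =>
    have h0 : 0 < d := by omega
    have hp : 0 < d ^ k := by positivity
    obtain ⟨t, h1, h2⟩ := ih (x % d ^ k) (Nat.mod_lt _ hp)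
    have h3 : x / d ^ k < d := Nat.div_lt_of_lt_mul (by rwa [← pow_succ])
    refine ⟨x / d ^ k + d * t, by rw [pow_succ']; nlinarith, ?_⟩
    rw [cx, Nat.add_mul_div_left _ _ h0, Nat.div_eq_of_lt h3, zero_add, h2,
      Nat.add_mul_mod_self_left, Nat.mod_eq_of_lt h3, Nat.mod_add_div']

def lin {R : Type} [CommRing R] (p : ℕ × ℕ) (g : R × R) : R := g.2 - p.2 * (g.1 + p.1 * g.2)

theorem lin_cx (k t : ℕ) (g : ℤ × ℤ) :
    lin (cx d (k + 1) t) g ≡ lin (cx d k (t / d)) g [ZMOD (d : ℤ) ^ (k - 1)] := by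
  cases k with
  | zero => simp [Int.modEq_one]
  | succ k =>
    refine (Int.modEq_iff_dvd.2 ⟨(t % d : ℕ) * (g.1 + (cx d (k + 1) (t / d)).1 * g.2), ?_⟩)
    simp only [lin, cx]; push_cast; ring

def isY (n : ℕ) : Prop := n % 2 = 0 ∧ 2 ≤ n
instance : DecidablePred isY := fun _ => inferInstanceAs (Decidable (_ ∧ _))
def ny (n : ℕ) : ℕ := (n - 1) / 2
def nx (n : ℕ) : ℕ := n - (n - 1) / 2

def tau : List (Fin d) → ℕ
  | [] => 0
  | e :: u => if isY u.length then tau u else e + d * tau u

def Yv : List (Fin d) → ℤ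
  | [] => 0
  | e :: u => if isY u.length then Yv u + (e : ℕ) * (d : ℤ) ^ ny u.length else Yv u

def dig [NeZero d] (j : ℕ) (z : ℤ) : Fin d :=
  ⟨(z / d ^ j % d).toNat, by
    have h : (0 : ℤ) < d := by exact_mod_cast Nat.pos_of_ne_zero (NeZero.ne d)
    have := Int.emod_lt_of_pos (z / d ^ j) h
    omega⟩

theorem dig_val [NeZero d] (j : ℕ) (z : ℤ) : ((dig (d := d) j z : ℕ) : ℤ) = z / d ^ j % d :=
  Int.toNat_of_nonneg (Int.emod_nonneg _ (by exact_mod_cast NeZero.ne d))

theorem emod_succ [NeZero d] (j : ℕ) (z : ℤ) :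
    z % (d : ℤ) ^ (j + 1) = z % d ^ j + (dig (d := d) j z : ℕ) * (d : ℤ) ^ j := by
  have h : (0 : ℤ) < d := by exact_mod_cast Nat.pos_of_ne_zero (NeZero.ne d)
  have hp : (0 : ℤ) < d ^ j := by positivity
  rw [dig_val]
  have a1 := Int.emod_add_mul_ediv z (d ^ j)
  have a2 := Int.emod_add_mul_ediv (z / d ^ j) d
  have a3 := Int.emod_lt_of_pos z hp
  have a4 := Int.emod_nonneg z hp.ne'
  have a5 := Int.emod_lt_of_pos (z / d ^ j) h
  have a6 := Int.emod_nonneg (z / d ^ j) h.ne'
  refine ((Int.ediv_emod_unique (q := z / d ^ j / d) (by positivity)).2 ⟨?_, by positivity, ?_⟩).2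
  · rw [pow_succ]; linear_combination a1 + d ^ j * a2
  · rw [pow_succ]; nlinarith

theorem dig_congr [NeZero d] (j : ℕ) {z z' : ℤ} (h : z ≡ z' [ZMOD (d : ℤ) ^ (j + 1)]) :
    dig (d := d) j z = dig j z' := by
  have h0 : (0 : ℤ) < d := by exact_mod_cast Nat.pos_of_ne_zero (NeZero.ne d)
  have a1 := emod_succ (d := d) j z
  rw [h, emod_succ, (h.of_dvd (pow_dvd_pow _ (Nat.le_succ j))).eq, add_right_inj] at a1
  exact Fin.ext (by exact_mod_cast (mul_right_cancel₀ (by positivity) a1).symm)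

def sv (m : ℕ → ℕ) (g : ℤ × ℤ) (u : List (Fin d)) : ℤ :=
  lin (cx d (nx u.length) (min (tau u) (m (nx u.length)))) g

def act [NeZero d] (m : ℕ → ℕ) (g : ℤ × ℤ) : List (Fin d) → List (Fin d)
  | [] => []
  | e :: u => (if isY u.length then dig (ny u.length) (Yv (e :: u) + sv m g u) else e) :: act m g u

variable [NeZero d] {m : ℕ → ℕ}

theorem act_len (g : ℤ × ℤ) (w : List (Fin d)) : (act m g w).length = w.length := by
  induction w with
  | nil => rfl
  | cons e u ih => simp [act, ih]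

theorem act_tau (g : ℤ × ℤ) (w : List (Fin d)) : tau (act m g w) = tau w := by
  induction w with
  | nil => rfl
  | cons e u ih => by_cases h : isY u.length <;> simp [act, tau, ih, act_len, h]

theorem act_sv (g h : ℤ × ℤ) (w : List (Fin d)) : sv m h (act m g w) = sv m h w := by
  simp [sv, act_len, act_tau]

omit [NeZero d] in
theorem sv_Y (g : ℤ × ℤ) (e : Fin d) (u : List (Fin d)) (h : isY u.length) :
    sv m g (e :: u) = sv m g u := by
  have : nx (u.length + 1) = nx u.length := by unfold isY nx at *; omega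
  simp [sv, tau, h, this]

theorem sv_X (hm : ∀ k, m (k + 1) / d = m k) (g : ℤ × ℤ) (e : Fin d) (u : List (Fin d))
    (h : ¬isY u.length) : sv m g (e :: u) ≡ sv m g u [ZMOD (d : ℤ) ^ ny u.length] := by
  have a1 : nx (u.length + 1) = nx u.length + 1 := by unfold isY nx at *; omega
  have a2 : ny u.length ≤ nx u.length - 1 := by unfold isY nx ny at *; omega
  have a3 : min (e + d * tau u) (m (nx u.length + 1)) / d = min (tau u) (m (nx u.length)) := by
    rw [Monotone.map_min (f := fun x => x / d) fun _ _ => Nat.div_le_div_right, hm,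
      Nat.add_mul_div_left _ _ (NeZero.pos d), Nat.div_eq_of_lt e.2, zero_add]
  simp only [sv, tau, h, if_false, List.length_cons, a1]
  rw [← a3]
  exact (lin_cx _ _ _).of_dvd (pow_dvd_pow _ a2)

theorem act_Y (hm : ∀ k, m (k + 1) / d = m k) (g : ℤ × ℤ) (w : List (Fin d)) :
    Yv (act m g w) = (Yv w + sv m g w) % (d : ℤ) ^ ny w.length := by
  induction w with
  | nil => simp [act, Yv, ny]
  | cons e u ih =>
    by_cases h : isY u.length
    · have a1 : ny (u.length + 1) = ny u.length + 1 := by unfold isY ny at *; omega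
      rw [List.length_cons, a1, emod_succ, sv_Y _ _ _ h, act, if_pos h, Yv, act_len, if_pos h, ih]
      congr 1
      simp only [Yv, h, if_true]
      rw [add_right_comm, Int.add_mul_emod_self_right]
    · have a1 : ny (u.length + 1) = ny u.length := by unfold isY ny at *; omega
      rw [List.length_cons, a1, act, Yv, Yv, act_len, if_neg h, if_neg h, ih]
      exact ((sv_X hm g e u h).add_left _).symm

theorem Y_bd (w : List (Fin d)) : 0 ≤ Yv w ∧ Yv w < (d : ℤ) ^ ny w.length := by
  induction w with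
  | nil => simp [Yv, ny]
  | cons e u ih =>
    by_cases h : isY u.length
    · have a1 : ny (u.length + 1) = ny u.length + 1 := by unfold isY ny at *; omega
      have a2 : ((e : ℕ) : ℤ) + 1 ≤ d := by exact_mod_cast e.2
      have h0 : (0 : ℤ) < d := by exact_mod_cast Nat.pos_of_ne_zero (NeZero.ne d)
      have hp : (0 : ℤ) < d ^ ny u.length := by positivity
      rw [List.length_cons, a1, Yv, if_pos h, pow_succ]
      exact ⟨by have := ih.1; positivity, by nlinarith [ih.2]⟩
    · have a1 : ny (u.length + 1) = ny u.length := by unfold isY ny at *; omega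
      rw [List.length_cons, a1, Yv, if_neg h]
      exact ih

theorem act_act (hm : ∀ k, m (k + 1) / d = m k) (g h : ℤ × ℤ) (w : List (Fin d)) :
    act m g (act m h w) = act m (g + h) w := by
  induction w with
  | nil => rfl
  | cons e u ih =>
    have := act_Y hm h (e :: u)
    rw [act] at this
    rw [act, act, act, ih, this, act_len, act_sv]
    by_cases hy : isY u.length
    · have a1 : ny (u.length + 1) = ny u.length + 1 := by unfold isY ny at *; omega
      simp only [hy, if_true, List.length_cons, a1, sv_Y _ _ _ hy]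
      congr 1
      refine dig_congr _ (((Int.mod_modEq _ _).add_right _).trans ?_)
      rw [show sv m (g + h) u = sv m h u + sv m g u by simp [sv, lin]; ring, add_assoc]
    · simp [hy]

theorem act_fix (hm : ∀ k, m (k + 1) / d = m k) (g : ℤ × ℤ) (w : List (Fin d)) :
    act m g w = w ↔ (d : ℤ) ^ ny w.length ∣ sv m g w := by
  refine ⟨fun h => ?_, fun h => ?_⟩
  · have := act_Y hm g w
    rw [h] at this
    have h2 : Yv w ≡ Yv w + sv m g w [ZMOD (d : ℤ) ^ ny w.length] :=
      (Int.emod_eq_of_lt (Y_bd w).1 (Y_bd w).2).trans this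
    simpa using h2.dvd
  · induction w with
    | nil => rfl
    | cons e u ih =>
      by_cases hy : isY u.length
      · have a1 : ny (u.length + 1) = ny u.length + 1 := by unfold isY ny at *; omega
        rw [List.length_cons, a1, sv_Y _ _ _ hy] at h
        rw [act, ih ((pow_dvd_pow _ (Nat.le_succ _)).trans h), if_pos hy,
          dig_congr (z' := Yv (e :: u)) _ (by
            simpa using (Int.modEq_zero_iff_dvd.2 h).add_left (Yv (e :: u)))]
        congr 1
        have h0 : (0 : ℤ) < d := by exact_mod_cast Nat.pos_of_ne_zero (NeZero.ne d)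
        have := dig_val (d := d) (ny u.length) (Yv (e :: u))
        rw [Yv, if_pos hy, Int.add_mul_ediv_right _ _ (by positivity),
          Int.ediv_eq_zero_of_lt (Y_bd u).1 (Y_bd u).2, zero_add,
          Int.emod_eq_of_lt (by positivity) (by exact_mod_cast e.2)] at this
        rw [Yv, if_pos hy]
        exact Fin.ext (by exact_mod_cast this)
      · have a1 : ny (u.length + 1) = ny u.length := by unfold isY ny at *; omega
        rw [List.length_cons, a1] at h
        rw [act, if_neg hy, ih ((sv_X hm g e u hy).dvd_iff.1 h)]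

theorem act_zero (hm : ∀ k, m (k + 1) / d = m k) (w : List (Fin d)) : act m 0 w = w :=
  (act_fix hm 0 w).2 (by simp [sv, lin])

def prm (hm : ∀ k, m (k + 1) / d = m k) (g : ℤ × ℤ) : Equiv.Perm (List (Fin d)) where
  toFun := act m g
  invFun := act m (-g)
  left_inv w := by rw [act_act hm, neg_add_cancel, act_zero hm]
  right_inv w := by rw [act_act hm, add_neg_cancel, act_zero hm]

def rho (hm : ∀ k, m (k + 1) / d = m k) : Multiplicative (ℤ × ℤ) →* Aut d where
  toFun g := ⟨prm hm g.toAdd, fun v w => ⟨fun ⟨a, h⟩ => by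
      cases v with
      | nil => cases h
      | cons e u => exact ⟨e, by rw [(prm hm g.toAdd).injective (List.cons.inj h).2]⟩,
    fun ⟨a, h⟩ => h ▸ ⟨_, rfl⟩⟩⟩
  map_one' := Subtype.ext (Equiv.ext (act_zero hm))
  map_mul' g h := Subtype.ext (Equiv.ext fun w => (act_act hm _ _ w).symm)

omit [NeZero d] in
theorem tau_lt (w : List (Fin d)) : tau w < d ^ nx w.length := by
  induction w with
  | nil => simp [tau, nx]
  | cons e u ih =>
    by_cases h : isY u.length
    · have : nx (u.length + 1) = nx u.length := by unfold isY nx at *; omega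
      simpa [tau, h, this]
    · have a1 : nx (u.length + 1) = nx u.length + 1 := by unfold isY nx at *; omega
      rw [tau, if_neg h, List.length_cons, a1, pow_succ']
      nlinarith [e.2]

theorem tau_sur (n t : ℕ) (ht : t < d ^ nx n) : ∃ w : List (Fin d), w.length = n ∧ tau w = t := by
  induction n generalizing t with
  | zero => exact ⟨[], rfl, by simpa [nx, tau, eq_comm] using ht⟩
  | succ n ih =>
    by_cases h : isY n
    · have : nx (n + 1) = nx n := by unfold isY nx at *; omega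
      obtain ⟨w, rfl, rfl⟩ := ih t (this ▸ ht)
      exact ⟨0 :: w, rfl, by simp [tau, h]⟩
    · have a1 : nx (n + 1) = nx n + 1 := by unfold isY nx at *; omega
      obtain ⟨w, rfl, h2⟩ := ih (t / d) (Nat.div_lt_of_lt_mul (by rwa [← pow_succ', ← a1]))
      exact ⟨⟨t % d, Nat.mod_lt _ (NeZero.pos d)⟩ :: w, rfl, by
        simp [tau, h, h2, Nat.mod_add_div]⟩

def S (d D k a : ℕ) : Set (ZMod D × ZMod D) := {q | ∃ t ≤ a, t < d ^ k ∧ lin (cx d k t) q = 0}

theorem prop_eq (hm : ∀ k, m (k + 1) / d = m k) (N : ℕ) : prop (rho hm).range N =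
    (S d (d ^ ny N) (nx N) (m (nx N))).ncard / ((d : ℝ) ^ ny N) ^ 2 := by
  let σ : Multiplicative (ℤ × ℤ) →* Multiplicative (ZMod (d ^ ny N) × ZMod (d ^ ny N)) :=
    AddMonoidHom.toMultiplicative ((Int.castAddHom _).prodMap (Int.castAddHom _))
  have σa : ∀ g : Multiplicative (ℤ × ℤ), (σ g).toAdd = (↑g.toAdd.1, ↑g.toAdd.2) := fun _ => rfl
  have sur : Function.Surjective σ := fun q => by
    obtain ⟨a, ha⟩ := ZMod.intCast_surjective q.toAdd.1
    obtain ⟨b, hb⟩ := ZMod.intCast_surjective q.toAdd.2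
    exact ⟨.ofAdd (a, b), Multiplicative.toAdd.injective (Prod.ext ha hb)⟩
  have fx : ∀ (g : Multiplicative (ℤ × ℤ)) (v : Lv d N), res d N (rho hm g) v = v ↔
      lin (cx d (nx N) (min (tau v.1) (m (nx N)))) (σ g).toAdd = 0 := fun g v => by
    obtain ⟨v, rfl⟩ := v
    refine Subtype.ext_iff.trans ((act_fix hm _ v).trans ?_)
    rw [← Nat.cast_pow, ← ZMod.intCast_zmod_eq_zero_iff_dvd]
    simp [sv, lin, σa]
  have := ratio σ ((res d N).comp (rho hm)) (fun g hg => by
      rw [MonoidHom.mem_ker] at hg ⊢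
      ext v : 1
      exact (fx g v).2 (by simp [hg, lin]))
    (fun g => ∃ v, g v = v) ((rho hm).range.map (res d N)) (MonoidHom.map_range _ _)
    ⊤ (MonoidHom.range_eq_top.2 sur).symm
  unfold prop
  rw [this]
  congr 1
  · rw [← Nat.card_coe_set_eq]
    refine congrArg _ (Nat.card_congr (Equiv.subtypeEquiv (Subgroup.topEquiv.toEquiv.trans
      Multiplicative.toAdd) fun q => ⟨?_, ?_⟩))
    · rintro ⟨g, h1, v, h2⟩
      exact ⟨_, min_le_right _ _, (min_le_left _ _).trans_lt (v.2 ▸ tau_lt v.1),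
        by have := (fx g v).1 h2; rwa [h1] at this⟩
    · rintro ⟨t, h1, h2, h3⟩
      obtain ⟨g, hg⟩ := sur q
      obtain ⟨w, h4, rfl⟩ := tau_sur N t h2
      exact ⟨g, hg, ⟨w, h4⟩, (fx g _).2 (by rw [min_eq_left h1, hg]; exact h3)⟩
  · simp [sq]

theorem card_lin (D : ℕ) [NeZero D] (p : ℕ × ℕ) :
    {q : ZMod D × ZMod D | lin p q = 0}.ncard ≤ D := by
  refine (Set.ncard_le_ncard_of_injOn (t := (Set.univ : Set (ZMod D)))
    (fun q : ZMod D × ZMod D => q.1 + p.1 * q.2)
    (fun _ _ => trivial) fun q hq q' hq' h => ?_).trans (by simp)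
  simp only [lin, Set.mem_setOf_eq] at hq hq' h
  have : q.2 = q'.2 := by linear_combination hq - hq' + p.2 * h
  exact Prod.ext (by linear_combination h - p.1 * this) this

omit [NeZero d] in
theorem S_step (D : ℕ) [NeZero D] (k a b : ℕ) :
    (S d D k (a + b)).ncard ≤ (S d D k a).ncard + b * D := by
  induction b with
  | zero => simp
  | succ b ih =>
    have : S d D k (a + (b + 1)) ⊆ S d D k (a + b) ∪ {q | lin (cx d k (a + (b + 1))) q = 0} := by
      rintro q ⟨t, h1, h2, h3⟩
      rcases h1.eq_or_lt with rfl | h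
      exacts [Or.inr h3, Or.inl ⟨t, by omega, h2, h3⟩]
    have := (Set.ncard_le_ncard this).trans (Set.ncard_union_le _ _)
    have := card_lin D (cx d k (a + (b + 1)))
    nlinarith

omit [NeZero d] in
theorem S_zero (D : ℕ) [NeZero D] (k : ℕ) : (S d D k 0).ncard ≤ D :=
  (Set.ncard_le_ncard (by
    rintro q ⟨t, h1, -, h3⟩
    obtain rfl : t = 0 := by omega
    exact h3)).trans (card_lin D (cx d k 0))

theorem cop (x n : ℕ) (hx : x.Coprime n) : ∃ k : ℕ, (x + k * n).Coprime d := by
  let ps : Finset ℕ := {p ∈ d.primeFactors | ¬p ∣ x}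
  use ps.prod id
  apply Nat.coprime_of_dvd
  intro p pp hp hpn
  by_cases hpx : p ∣ x
  · have h := Nat.dvd_sub hp hpx
    rw [add_comm, Nat.add_sub_cancel] at h
    rcases pp.dvd_mul.mp h with h | h
    · have ⟨q, hq, hq'⟩ := (pp.prime.dvd_finsetProd_iff id).mp h
      rw [Finset.mem_filter, Nat.mem_primeFactors,
        ← (Nat.prime_dvd_prime_iff_eq pp hq.1.1).mp hq'] at hq
      exact hq.2 hpx
    · exact Nat.Prime.not_coprime_iff_dvd.mpr ⟨p, pp, hpx, h⟩ hx
  · have pps : p ∈ ps :=
      Finset.mem_filter.mpr ⟨Nat.mem_primeFactors.mpr ⟨pp, hpn, NeZero.ne d⟩, hpx⟩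
    have h := Nat.dvd_sub hp ((Finset.dvd_prod_of_mem id pps).mul_right n)
    rw [Nat.add_sub_cancel] at h
    contradiction

theorem S_all (j k : ℕ) (h : j ≤ k) : S d (d ^ j) (k + 1) (d ^ (k + 1)) = Set.univ := by
  refine Set.eq_univ_of_forall fun q => ?_
  obtain ⟨g, a, b, h1, h2, h3⟩ : ∃ g a b : ℕ, a.Coprime b ∧ q.1.val = a * g ∧ q.2.val = b * g := by
    obtain ⟨a, b, h⟩ := Nat.exists_coprime q.1.val q.2.val
    exact ⟨_, a, b, h⟩
  obtain ⟨c, hc⟩ := cop (d := d) a b h1
  have hc' : (a + c % d * b).Coprime (d ^ j) := by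
    refine Nat.Coprime.pow_right _ ?_
    rw [← Nat.coprime_add_mul_left_left _ _ (c / d * b)]
    convert hc using 1
    nth_rw 3 [← Nat.mod_add_div c d]
    ring
  obtain ⟨t, t1, t2⟩ := cx_sur k (c % d) ((b * ((a + c % d * b : ℕ) : ZMod (d ^ j))⁻¹).val)
    (Nat.mod_lt _ (NeZero.pos d)) ((ZMod.val_lt _).trans_le (Nat.pow_le_pow_right (NeZero.pos d) h))
  refine ⟨t, t1.le, t1, ?_⟩
  have a1 := ZMod.coe_mul_inv_eq_one _ hc'
  rw [t2, lin, ZMod.natCast_zmod_val, ← ZMod.natCast_zmod_val q.1, ← ZMod.natCast_zmod_val q.2,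
    h2, h3]
  generalize ((a + c % d * b : ℕ) : ZMod (d ^ j))⁻¹ = u at *
  generalize c % d = c at *
  push_cast at *
  linear_combination -(b * g) * a1

noncomputable def mt (d : ℕ) (t : ℝ) (k : ℕ) : ℕ := ⌊t * d ^ k⌋₊

omit [NeZero d] in
theorem mt_div (t : ℝ) (k : ℕ) (hd : 0 < d) : mt d t (k + 1) / d = mt d t k := by
  rw [mt, mt, ← Nat.floor_div_natCast, pow_succ, ← mul_assoc, mul_div_cancel_right₀]
  positivity

theorem result : ∀ d : ℕ, 2 ≤ d →
    (∀ α ∈ Set.Icc (0 : ℝ) 1, ∃ G : Subgroup (Aut d), G.FG ∧ Tendsto (prop G) atTop (𝓝 α)) ∧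
    (∀ G : Subgroup (Aut d), LevelTransitive G → ∀ α : ℝ, Tendsto (prop G) atTop (𝓝 α) →
      α ≤ 1 - 1 / d.factorial) := by
  intro d hd
  have d0 : 0 < d := by omega
  refine ⟨fun α hα => ?_, fun G hG α h => le_of_tendsto h (eventually_atTop.2 ⟨1, fun n hn =>
    (anti d0 G hn).trans (lt_bound hd G hG)⟩)⟩
  have : NeZero d := ⟨d0.ne'⟩
  let G : ℝ → Subgroup (Aut d) := fun t => (rho fun k => mt_div t k d0).range
  let F : ℝ → ℝ := fun t => ⨅ n, prop (G t) n
  have hF : ∀ t, Tendsto (prop (G t)) atTop (𝓝 (F t)) := fun t =>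
    tendsto_atTop_ciInf (anti d0 _) ⟨0, by rintro _ ⟨n, rfl⟩; unfold prop; positivity⟩
  have d1 : (1 : ℝ) < d := by exact_mod_cast hd
  have z : Tendsto (fun n => ((d : ℝ) ^ ny n)⁻¹) atTop (𝓝 0) :=
    tendsto_inv_atTop_zero.comp ((tendsto_pow_atTop_atTop_of_one_lt d1).comp
      (tendsto_atTop.2 fun b => eventually_atTop.2 ⟨2 * b + 1, fun n hn => by unfold ny; omega⟩))
  have F0 : F 0 = 0 := by
    refine tendsto_nhds_unique (hF 0) (squeeze_zero (fun n => by unfold prop; positivity)
      (fun n => ?_) z)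
    have : ((S d (d ^ ny n) (nx n) 0).ncard : ℝ) ≤ d ^ ny n := by exact_mod_cast S_zero _ _
    rw [prop_eq, show mt d 0 (nx n) = 0 by simp [mt], div_le_iff₀ (by positivity), sq,
      inv_mul_cancel_left₀ (by positivity)]
    exact this
  have F1 : F 1 = 1 := by
    refine tendsto_nhds_unique (hF 1) (tendsto_const_nhds.congr' (eventually_atTop.2
      ⟨1, fun n hn => ?_⟩))
    obtain ⟨k, hk⟩ : ∃ k, nx n = k + 1 := ⟨nx n - 1, by unfold nx; omega⟩
    have : mt d 1 (k + 1) = d ^ (k + 1) := by rw [mt, one_mul, ← Nat.cast_pow, Nat.floor_natCast]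
    rw [prop_eq, hk, this, S_all _ _ (by unfold nx ny at *; omega), eq_div_iff (by positivity)]
    simp [sq]
  have mono : ∀ s t : ℝ, s ≤ t → F s ≤ F t := fun s t h =>
    le_of_tendsto_of_tendsto' (hF s) (hF t) fun n => by
      rw [prop_eq, prop_eq]
      refine div_le_div_of_nonneg_right (Nat.cast_le.2 (Set.ncard_le_ncard ?_)) (by positivity)
      rintro q ⟨x, h1, h2⟩
      exact ⟨x, h1.trans (Nat.floor_le_floor (by gcongr)), h2⟩
  have lip : ∀ s t : ℝ, 0 ≤ s → s ≤ t → F t ≤ F s + d ^ 2 * (t - s) := fun s t hs h => by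
    have := ((hF s).add_const (d ^ 2 * (t - s))).add z
    rw [add_zero] at this
    refine le_of_tendsto_of_tendsto' (hF t) this fun n => ?_
    obtain ⟨b, hb⟩ := Nat.exists_eq_add_of_le
      (show mt d s (nx n) ≤ mt d t (nx n) from Nat.floor_le_floor (by gcongr))
    have a1 : (mt d t (nx n) : ℝ) ≤ t * d ^ nx n := Nat.floor_le (by have := hs.trans h; positivity)
    have a2 : s * d ^ nx n < mt d s (nx n) + 1 := Nat.lt_floor_add_one _
    have a3 : (d : ℝ) ^ nx n ≤ d ^ 2 * d ^ ny n := by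
      rw [← pow_add]; exact pow_le_pow_right₀ d1.le (by unfold nx ny; omega)
    have a4 : ((S d (d ^ ny n) (nx n) (mt d s (nx n) + b)).ncard : ℝ) ≤
        (S d (d ^ ny n) (nx n) (mt d s (nx n))).ncard + b * d ^ ny n := by
      exact_mod_cast S_step _ _ _ _
    rw [prop_eq, prop_eq, hb]
    rw [hb] at a1
    push_cast at a1
    have a5 : (b : ℝ) ≤ d ^ 2 * (t - s) * d ^ ny n + 1 := by
      nlinarith [mul_le_mul_of_nonneg_left a3 (sub_nonneg.2 h)]
    have a6 : (0 : ℝ) < d ^ ny n := by positivity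
    generalize (d : ℝ) ^ ny n = D at *
    rw [div_le_iff₀ (by positivity)]
    field_simp
    nlinarith [mul_le_mul_of_nonneg_right a5 a6.le]
  have cont : ContinuousOn F (Set.Icc 0 1) := by
    refine (LipschitzOnWith.of_le_add_mul' (d ^ 2) fun t ht s hs => ?_).continuousOn
    rcases le_total s t with h | h
    · rw [Real.dist_eq, abs_of_nonneg (sub_nonneg.2 h)]
      exact lip s t hs.1 h
    · exact (mono t s h).trans (le_add_of_nonneg_right (by positivity))
  obtain ⟨t, -, rfl⟩ := intermediate_value_Icc zero_le_one cont (by rwa [F0, F1])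
  exact ⟨G t, (Group.fg_iff_subgroup_fg _).1 inferInstance, hF t⟩

end Pool.Agent.Results.MP_80cb54_al.AllValues
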